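import Pool.Agent.Helper65.KPZ.St

/-!
# Project KP, chapter Z, module ZMA: isomorphic graded algebras from compatible linear bijections
-/

set_option autoImplicit false

namespace Pool.Agent.Helper99.KPZ

open Pool.Agent.Helper65.KPZ

universe u v w

section

variable {A : Type u} [CommRing A] [Algebra ℂ A] {A' : Type w} [CommRing A'] [Algebra ℂ A']
  {Λ : Type v} [AddCommMonoid Λ] {F : Λ → Submodule ℂ A} {hF : Mult F}
  {F' : Λ → Submodule ℂ A'} {hF' : Mult F'}

/-- The map on coefficients. -/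
private noncomputable def th (hF : Mult F) (hF' : Mult F') (E : ∀ a, F a ≃ₗ[ℂ] F' a)
    (x : gr F hF) : gr F' hF' :=
  ⟨AddMonoidAlgebra.ofCoeff (Finsupp.onFinset x.1.coeff.support
      (fun a => ((E a ⟨x.1.coeff a, x.2 a⟩ : F' a) : A')) (fun a ha => by
        rw [Finsupp.mem_support_iff]
        intro h0
        apply ha
        have : (⟨x.1.coeff a, x.2 a⟩ : F a) = 0 := Subtype.ext h0
        simp only [this, map_zero, ZeroMemClass.coe_zero])),
    fun a => (E a ⟨x.1.coeff a, x.2 a⟩).2⟩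

private lemma coeff_th (E : ∀ a, F a ≃ₗ[ℂ] F' a) (x : gr F hF) (a : Λ) :
    (th hF hF' E x).1.coeff a = (E a ⟨x.1.coeff a, x.2 a⟩ : A') := rfl

/-- `E` on all elements of `A` (`0` outside of `F a`). -/
private noncomputable def ee (E : ∀ a, F a ≃ₗ[ℂ] F' a) (a : Λ) (r : A) : A' :=
  open Classical in if h : r ∈ F a then (E a ⟨r, h⟩ : A') else 0

private lemma ee_of (E : ∀ a, F a ≃ₗ[ℂ] F' a) (a : Λ) (r : A) (h : r ∈ F a) :
    ee E a r = (E a ⟨r, h⟩ : A') := by
  unfold ee
  rw [dif_pos h]

private lemma ee_zero (E : ∀ a, F a ≃ₗ[ℂ] F' a) (a : Λ) : ee E a 0 = 0 := by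
  rw [ee_of E a 0 (zero_mem _)]
  have : (⟨0, zero_mem _⟩ : F a) = 0 := rfl
  rw [this, map_zero, ZeroMemClass.coe_zero]

private lemma ee_add (E : ∀ a, F a ≃ₗ[ℂ] F' a) (a : Λ) (r s : A) (hr : r ∈ F a) (hs : s ∈ F a) :
    ee E a (r + s) = ee E a r + ee E a s := by
  rw [ee_of E a _ (add_mem hr hs), ee_of E a r hr, ee_of E a s hs]
  have : (⟨r + s, add_mem hr hs⟩ : F a) = ⟨r, hr⟩ + ⟨s, hs⟩ := rfl
  rw [this, map_add, Submodule.coe_add]

private lemma ee_sum {ι : Type*} (E : ∀ a, F a ≃ₗ[ℂ] F' a) (a : Λ) (s : Finset ι) (f : ι → A)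
    (hf : ∀ i ∈ s, f i ∈ F a) : ee E a (∑ i ∈ s, f i) = ∑ i ∈ s, ee E a (f i) := by
  classical
  induction s using Finset.induction_on with
  | empty => simp [ee_zero]
  | insert i s hi ih =>
    rw [Finset.sum_insert hi, Finset.sum_insert hi,
      ee_add E a _ _ (hf i (Finset.mem_insert_self _ _))
        (Submodule.sum_mem _ fun j hj => hf j (Finset.mem_insert_of_mem hj)),
      ih fun j hj => hf j (Finset.mem_insert_of_mem hj)]

private lemma th_add (E : ∀ a, F a ≃ₗ[ℂ] F' a) (x y : gr F hF) :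
    th hF hF' E (x + y) = th hF hF' E x + th hF hF' E y := by
  apply Subtype.ext
  apply AddMonoidAlgebra.ext
  ext a
  change _ = (th hF hF' E x).1.coeff a + (th hF hF' E y).1.coeff a
  rw [coeff_th, coeff_th, coeff_th, ← ee_of E a _ _, ← ee_of E a _ _, ← ee_of E a _ _]
  exact ee_add E a _ _ (x.2 a) (y.2 a)

private lemma th_mul (E : ∀ a, F a ≃ₗ[ℂ] F' a)
    (hm : ∀ a b (f : F a) (g : F b) (h : F (a + b)), (h : A) = f * g →
      (E (a + b) h : A') = (E a f : A') * (E b g : A')) (x y : gr F hF) :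
    th hF hF' E (x * y) = th hF hF' E x * th hF hF' E y := by
  classical
  apply Subtype.ext
  apply AddMonoidAlgebra.ext
  ext a
  have hee : ∀ b c r s, r ∈ F b → s ∈ F c → ee E (b + c) (r * s) = ee E b r * ee E c s := by
    intro b c r s hr hs
    rw [ee_of E _ _ (hF.mul b c r s hr hs), ee_of E b r hr, ee_of E c s hs]
    exact hm b c ⟨r, hr⟩ ⟨s, hs⟩ ⟨r * s, hF.mul b c r s hr hs⟩ rfl
  have hL : (th hF hF' E (x * y)).1.coeff a =
      ∑ b ∈ x.1.coeff.support, ∑ c ∈ y.1.coeff.support,
        if b + c = a then ee E b (x.1.coeff b) * ee E c (y.1.coeff c) else 0 := by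
    rw [coeff_th, ← ee_of E a _ _]
    have e : (x * y : gr F hF).1.coeff a = ∑ b ∈ x.1.coeff.support, ∑ c ∈ y.1.coeff.support,
        if b + c = a then x.1.coeff b * y.1.coeff c else 0 := AddMonoidAlgebra.coeff_mul _ _ _
    have hin : ∀ b c, (if b + c = a then x.1.coeff b * y.1.coeff c else 0) ∈ F a := by
      intro b c
      split_ifs with h
      · rw [← h]
        exact hF.mul _ _ _ _ (x.2 b) (y.2 c)
      · exact zero_mem _
    rw [e, ee_sum E a _ _ fun b _ => Submodule.sum_mem _ fun c _ => hin b c]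
    refine Finset.sum_congr rfl fun b _ => ?_
    rw [ee_sum E a _ _ fun c _ => hin b c]
    refine Finset.sum_congr rfl fun c _ => ?_
    split_ifs with h
    · subst h
      exact hee b c _ _ (x.2 b) (y.2 c)
    · exact ee_zero E a
  have hsub : ∀ z : gr F hF, (th hF hF' E z).1.coeff.support ⊆ z.1.coeff.support := by
    intro z b hb
    rw [Finsupp.mem_support_iff] at hb ⊢
    intro h0
    apply hb
    rw [coeff_th, ← ee_of E b _ (z.2 b), h0, ee_zero]
  have hR : (th hF hF' E x * th hF hF' E y : gr F' hF').1.coeff a =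
      ∑ b ∈ x.1.coeff.support, ∑ c ∈ y.1.coeff.support,
        if b + c = a then ee E b (x.1.coeff b) * ee E c (y.1.coeff c) else 0 := by
    have e : (th hF hF' E x * th hF hF' E y : gr F' hF').1.coeff a =
        (th hF hF' E x).1.coeff.sum fun b r => (th hF hF' E y).1.coeff.sum fun c s =>
          if b + c = a then r * s else 0 := AddMonoidAlgebra.coeff_mul _ _ _
    rw [e, Finsupp.sum_of_support_subset _ (hsub x)]
    · refine Finset.sum_congr rfl fun b _ => ?_
      rw [Finsupp.sum_of_support_subset _ (hsub y)]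
      · refine Finset.sum_congr rfl fun c _ => ?_
        rw [coeff_th, coeff_th, ← ee_of E b _ _, ← ee_of E c _ _]
      · intro c _
        simp
    · intro b _
      simp
  rw [hL, hR]

private lemma th_th (E : ∀ a, F a ≃ₗ[ℂ] F' a) (x : gr F hF) :
    th hF' hF (fun a => (E a).symm) (th hF hF' E x) = x := by
  apply Subtype.ext
  apply AddMonoidAlgebra.ext
  ext a
  rw [coeff_th]
  have : (⟨(th hF hF' E x).1.coeff a, (th hF hF' E x).2 a⟩ : F' a) = E a ⟨x.1.coeff a, x.2 a⟩ :=
    Subtype.ext (coeff_th E x a)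
  rw [this, LinearEquiv.symm_apply_apply]

end

theorem hZMA : StZMA.{u, v, w} := by
  intro A _ _ A' _ _ Λ _ F hF F' hF' E _ hm
  exact ⟨{ toFun := th hF hF' E
           invFun := th hF' hF fun a => (E a).symm
           left_inv := th_th E
           right_inv := fun y => by
             have := th_th (hF := hF') (hF' := hF) (fun a => (E a).symm) y
             exact this
           map_mul' := th_mul E hm
           map_add' := th_add E }⟩

end Pool.Agent.Helper99.KPZ
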